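import Mathlib
import Pool.Agent.W761.CP.Defs

set_option autoImplicit false

open MeasureTheory Complex Metric Set
open scoped Real

namespace Pool.Agent.W903.CP
open Pool.Agent.W761.CP (IsR plusB)

noncomputable section

section circ
variable {E F : Type*} [NormedAddCommGroup E] [NormedSpace ℂ E] [CompleteSpace E]
  [NormedAddCommGroup F] [NormedSpace ℂ F] [CompleteSpace F]

theorem clm_circle (L : E →L[ℂ] F) {f : ℂ → E} {c : ℂ} {R : ℝ}
    (hf : CircleIntegrable f c R) :
    L (circleIntegral f c R) = circleIntegral (fun z => L (f z)) c R := by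
  simp only [circleIntegral]
  rw [← L.intervalIntegral_comp_comm hf.out]
  simp only [map_smul]

theorem circle_mem (S : Submodule ℂ E) (hS : IsClosed (S : Set E)) {f : ℂ → E} {c : ℂ} {R : ℝ}
    (hR : 0 ≤ R) (hf : ContinuousOn f (sphere c R)) (h : ∀ z ∈ sphere c R, f z ∈ S) :
    circleIntegral f c R ∈ S := by
  have : IsClosed (S : Set E) := hS
  have h1 := clm_circle (S.mkQL) (hf.circleIntegrable hR)
  have h2 : circleIntegral (fun z => S.mkQL (f z)) c R = circleIntegral (fun _ => (0 : E ⧸ S)) c R :=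
    circleIntegral.integral_congr hR fun z hz => by
      exact (Submodule.Quotient.mk_eq_zero S).2 (h z hz)
  rw [h2] at h1
  have h3 : circleIntegral (fun _ => (0 : E ⧸ S)) c R = 0 := by simp [circleIntegral]
  rw [h3] at h1
  exact (Submodule.Quotient.mk_eq_zero S).1 h1

end circ

section res
variable {X : Type} [NormedAddCommGroup X] [InnerProductSpace ℂ X]

theorem isR_unique {H : Submodule ℂ (X × X)} {z : ℂ} {R R' : X →L[ℂ] X} (h : IsR H z R)
    (h' : IsR H z R') : R = R' := by
  ext f; exact h'.2 _ _ (h.1 f)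

theorem res_id {H : Submodule ℂ (X × X)} {z z' : ℂ} {R R' : X →L[ℂ] X} (h : IsR H z R)
    (h' : IsR H z' R') : R - R' = (z - z') • (R * R') := by
  ext f
  have h1 := h'.1 f
  have h2 : R' f = R (f + (z' - z) • R' f) := by
    apply h.2
    have : f + (z' - z) • R' f + z • R' f = f + z' • R' f := by module
    rw [this]; exact h1
  rw [map_add, map_smul] at h2
  change R f - R' f = (z - z') • R (R' f)
  rw [h2]
  rw [← h2]
  have h3 : R f = R' f - (z' - z) • R (R' f) := by rw [eq_sub_iff_add_eq]; exact h2.symm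
  rw [h3]; module

theorem isR_near [CompleteSpace X] {H : Submodule ℂ (X × X)} {z z' : ℂ} {R : X →L[ℂ] X}
    (h : IsR H z R) (hz : ‖z' - z‖ * ‖R‖ < 1) :
    IsR H z' (R * Ring.inverse (1 - (z' - z) • R)) := by
  have hu : IsUnit (1 - (z' - z) • R) := by
    have : ‖(z' - z) • R‖ < 1 := by rwa [norm_smul]
    exact (Units.oneSub _ this).isUnit
  set S := Ring.inverse (1 - (z' - z) • R) with hS
  have e1 : (1 - (z' - z) • R) * S = 1 := Ring.mul_inverse_cancel _ hu
  have e2 : S * (1 - (z' - z) • R) = 1 := Ring.inverse_mul_cancel _ hu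
  have f1 : ∀ f, S f - (z' - z) • R (S f) = f := fun f => by
    have := congrArg (fun A : X →L[ℂ] X => A f) e1
    simpa using this
  have f2 : ∀ f, S (f - (z' - z) • R f) = f := fun f => by
    have := congrArg (fun A : X →L[ℂ] X => A f) e2
    simpa using this
  constructor
  · intro f
    have := h.1 (S f)
    have e : f + z' • R (S f) = S f + z • R (S f) := by
      calc f + z' • R (S f) = (S f - (z' - z) • R (S f)) + z' • R (S f) := by rw [f1 f]
        _ = _ := by module
    change (R (S f), f + z' • R (S f)) ∈ H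
    rw [e]; exact this
  · intro u f hu'
    have h1 : u = R (f + (z' - z) • u) := by
      apply h.2
      have : f + (z' - z) • u + z • u = f + z' • u := by module
      rw [this]; exact hu'
    have h2 : u - (z' - z) • R u = R f := by
      conv_lhs => lhs; rw [h1]
      rw [map_add, map_smul]; abel
    have h3 : R (S f) - (z' - z) • R (R (S f)) = R f := by
      conv_rhs => rw [← f1 f]
      rw [map_sub, map_smul]
    have h4 := f2 u
    rw [h2, ← h3, f2] at h4
    exact h4.symm

open Classical in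
/-- the resolvent function -/
def rf (H : Submodule ℂ (X × X)) (z : ℂ) : X →L[ℂ] X :=
  if h : ∃ R, IsR H z R then h.choose else 0

theorem rf_eq {H : Submodule ℂ (X × X)} {z : ℂ} {R : X →L[ℂ] X} (h : IsR H z R) :
    rf H z = R := by
  have h' : ∃ R, IsR H z R := ⟨R, h⟩
  rw [rf, dif_pos h']
  exact isR_unique h'.choose_spec h

theorem rf_spec {H : Submodule ℂ (X × X)} {z : ℂ} (h : ∃ R, IsR H z R) : IsR H z (rf H z) := by
  obtain ⟨R, hR⟩ := h
  rw [rf_eq hR]; exact hR

theorem rf_diff [CompleteSpace X] {H : Submodule ℂ (X × X)} {z : ℂ} (h : ∃ R, IsR H z R) :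
    DifferentiableAt ℂ (rf H) z := by
  obtain ⟨R, hR⟩ := h
  have h1 : DifferentiableAt ℂ (fun z' : ℂ => R * Ring.inverse (1 - (z' - z) • R)) z := by
    have h2 : DifferentiableAt ℂ (fun z' : ℂ => (1 : X →L[ℂ] X) - (z' - z) • R) z := by fun_prop
    have h3 : DifferentiableAt ℂ (Ring.inverse : (X →L[ℂ] X) → (X →L[ℂ] X))
        ((fun z' : ℂ => (1 : X →L[ℂ] X) - (z' - z) • R) z) := by
      apply differentiableAt_inverse
      simp
    exact (h3.comp z h2).const_mul R
  refine h1.congr_of_eventuallyEq ?_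
  have h4 : ∀ᶠ z' in nhds z, ‖z' - z‖ * ‖R‖ < 1 := by
    have hc : Continuous fun z' : ℂ => ‖z' - z‖ * ‖R‖ := by fun_prop
    apply hc.continuousAt.eventually_lt continuousAt_const
    simp
  filter_upwards [h4] with z' hz'
  exact rf_eq (isR_near hR hz')

theorem quasi {H : Submodule ℂ (X × X)} {z : ℂ} {R : X →L[ℂ] X} (h : IsR H z R) {v r : X} {l : ℂ}
    (hv : (v, l • v + r) ∈ H) : (l - z) • R v = v - R r := by
  have h1 : v = R ((l - z) • v + r) := by
    apply h.2
    have : (l - z) • v + r + z • v = l • v + r := by module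
    rw [this]; exact hv
  rw [map_add, map_smul] at h1
  rw [eq_sub_iff_add_eq]; exact h1.symm

theorem pert {H : Submodule ℂ (X × X)} {z : ℂ} {B R R' : X →L[ℂ] X} (h : IsR H z R)
    (h' : IsR (plusB H B) z R') : R - R' = R * B * R' := by
  ext f
  have h1 : (R' f, f + z • R' f - B (R' f)) ∈ H := h'.1 f
  have h2 : R' f = R (f - B (R' f)) := by
    apply h.2
    have : f - B (R' f) + z • R' f = f + z • R' f - B (R' f) := by abel
    rw [this]; exact h1
  rw [map_sub] at h2
  change R f - R' f = R (B (R' f))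
  rw [sub_eq_iff_eq_add']
  exact (sub_eq_iff_eq_add.1 h2.symm)

theorem annulus [CompleteSpace X] {H : Submodule ℂ (X × X)} {z₀ : ℂ} {ρ K : ℝ} (hρ : 0 < ρ)
    (hK : 0 ≤ K) (hC : ∀ z, ‖z - z₀‖ = ρ → ∃ R, IsR H z R ∧ ‖R‖ ≤ K) {z : ℂ}
    (h1 : ρ ≤ ‖z - z₀‖) (h2 : ‖z - z₀‖ ≤ ρ + 1 / (2 * (K + 1))) : ∃ R, IsR H z R := by
  have hs : 0 < ‖z - z₀‖ := hρ.trans_le h1
  set s := ‖z - z₀‖ with hsdef
  have e1 : ‖(z₀ + ((ρ / s : ℝ) : ℂ) * (z - z₀)) - z₀‖ = ρ := by
    rw [add_sub_cancel_left, norm_mul, Complex.norm_real, Real.norm_of_nonneg (by positivity),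
      ← hsdef]
    field_simp
  obtain ⟨R, hR, hRK⟩ := hC _ e1
  refine ⟨_, isR_near hR (z' := z) ?_⟩
  have e2 : z - (z₀ + ((ρ / s : ℝ) : ℂ) * (z - z₀)) = ((1 - ρ / s : ℝ) : ℂ) * (z - z₀) := by
    push_cast; ring
  have e3 : (1 - ρ / s) * s = s - ρ := by field_simp
  have e4 : 0 ≤ 1 - ρ / s := by
    rw [sub_nonneg, div_le_one hs]; exact h1
  rw [e2, norm_mul, Complex.norm_real, Real.norm_of_nonneg e4, ← hsdef, e3]
  have e5 : s - ρ ≤ 1 / (2 * (K + 1)) := by linarith
  calc (s - ρ) * ‖R‖ ≤ 1 / (2 * (K + 1)) * K := by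
        apply mul_le_mul e5 hRK (norm_nonneg _) (by positivity)
    _ < 1 := by
        rw [div_mul_eq_mul_div, div_lt_one (by positivity)]
        linarith

end res

end

end Pool.Agent.W903.CP
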