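import Mathlib
import Pool.Agent.W903.CP.RZ

set_option autoImplicit false

open MeasureTheory Complex Metric Set
open scoped Real

namespace Pool.Agent.W903.CP
open Pool.Agent.W761.CP (IsR plusB S_RZ)

noncomputable section

/-- minus the normalising constant -/
def cc : ℂ := (2 * π * I : ℂ)⁻¹

theorem cc_mul : cc * (2 * π * I : ℂ) = 1 := by
  unfold cc
  apply inv_mul_cancel₀
  simp [Real.pi_ne_zero]

section
variable {X : Type} [NormedAddCommGroup X] [InnerProductSpace ℂ X] [CompleteSpace X]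

/-- Riesz projection -/
def PP (H : Submodule ℂ (X × X)) (z₀ : ℂ) (ρ : ℝ) : X →L[ℂ] X :=
  -(cc • circleIntegral (rf H) z₀ ρ)

theorem rf_cont {H : Submodule ℂ (X × X)} {z₀ : ℂ} {ρ : ℝ}
    (hC : ∀ z, ‖z - z₀‖ = ρ → ∃ R, IsR H z R) : ContinuousOn (rf H) (sphere z₀ ρ) := fun z hz =>
  (rf_diff (hC z (mem_sphere_iff_norm.1 hz))).continuousAt.continuousWithinAt

theorem pp_bigger {H : Submodule ℂ (X × X)} {z₀ : ℂ} {ρ ρ' : ℝ} (hρ : 0 < ρ) (hρ' : ρ ≤ ρ')
    (hA : ∀ z, ρ ≤ ‖z - z₀‖ → ‖z - z₀‖ ≤ ρ' → ∃ R, IsR H z R) : PP H z₀ ρ = PP H z₀ ρ' := by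
  unfold PP
  rw [Complex.circleIntegral_eq_of_differentiable_on_annulus_off_countable hρ hρ'
    Set.countable_empty]
  · intro z hz
    apply (rf_diff (hA z _ _)).continuousAt.continuousWithinAt
    · have := hz.2
      rw [mem_ball_iff_norm, not_lt] at this
      exact this
    · exact mem_closedBall_iff_norm.1 hz.1
  · intro z hz
    apply rf_diff (hA z _ _)
    · have := hz.1.2
      rw [mem_closedBall_iff_norm, not_le] at this
      exact this.le
    · exact (mem_ball_iff_norm.1 hz.1.1).le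

theorem mul_pp {H : Submodule ℂ (X × X)} {z₀ : ℂ} {ρ : ℝ} (hρ : 0 ≤ ρ)
    (hC : ∀ z, ‖z - z₀‖ = ρ → ∃ R, IsR H z R) (A : X →L[ℂ] X) :
    A * PP H z₀ ρ = -(cc • circleIntegral (fun z => A * rf H z) z₀ ρ) := by
  have h := clm_circle (ContinuousLinearMap.mul ℂ (X →L[ℂ] X) A)
    ((rf_cont hC).circleIntegrable hρ)
  simp only [ContinuousLinearMap.mul_apply'] at h
  rw [PP, mul_neg, mul_smul_comm, h]

theorem pp_mul {H : Submodule ℂ (X × X)} {z₀ : ℂ} {ρ : ℝ} (hρ : 0 ≤ ρ)
    (hC : ∀ z, ‖z - z₀‖ = ρ → ∃ R, IsR H z R) (A : X →L[ℂ] X) :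
    PP H z₀ ρ * A = -(cc • circleIntegral (fun z => rf H z * A) z₀ ρ) := by
  have h := clm_circle ((ContinuousLinearMap.mul ℂ (X →L[ℂ] X)).flip A)
    ((rf_cont hC).circleIntegrable hρ)
  simp only [ContinuousLinearMap.flip_apply, ContinuousLinearMap.mul_apply'] at h
  rw [PP, neg_mul, smul_mul_assoc, h]

theorem pp_apply {H : Submodule ℂ (X × X)} {z₀ : ℂ} {ρ : ℝ} (hρ : 0 ≤ ρ)
    (hC : ∀ z, ‖z - z₀‖ = ρ → ∃ R, IsR H z R) (v : X) :
    PP H z₀ ρ v = -(cc • circleIntegral (fun z => rf H z v) z₀ ρ) := by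
  have h := clm_circle (ContinuousLinearMap.apply ℂ X v)
    ((rf_cont hC).circleIntegrable hρ)
  simp only [ContinuousLinearMap.apply_apply] at h
  rw [← h]
  rfl

theorem pp_idem {H : Submodule ℂ (X × X)} {z₀ : ℂ} {ρ ρ' : ℝ} (hρ : 0 < ρ) (hρ' : ρ < ρ')
    (hA : ∀ z, ρ ≤ ‖z - z₀‖ → ‖z - z₀‖ ≤ ρ' → ∃ R, IsR H z R) :
    PP H z₀ ρ * PP H z₀ ρ = PP H z₀ ρ := by
  have hC : ∀ z, ‖z - z₀‖ = ρ → ∃ R, IsR H z R := fun z hz => hA z hz.ge (hz.le.trans hρ'.le)
  have hC' : ∀ z, ‖z - z₀‖ = ρ' → ∃ R, IsR H z R := fun z hz => hA z (hρ'.le.trans hz.ge) hz.le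
  have hc' : CircleIntegrable (rf H) z₀ ρ' := (rf_cont hC').circleIntegrable (hρ.le.trans hρ'.le)
  set g : ℂ → (X →L[ℂ] X) := fun w => (2 * π * I : ℂ)⁻¹ • circleIntegral (fun z => (z - w)⁻¹ • rf H z) z₀ ρ'
    with hg
  have hgd : DifferentiableOn ℂ g (ball z₀ ρ') := by
    have h0 : CircleIntegrable (rf H) z₀ ((⟨ρ', hρ.le.trans hρ'.le⟩ : NNReal) : ℝ) := hc'
    have h1 := (hasFPowerSeriesOn_cauchy_integral h0
      (show (0 : NNReal) < ⟨ρ', hρ.le.trans hρ'.le⟩ from hρ.trans hρ')).analyticOnNhd.differentiableOn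
    refine h1.mono ?_
    intro z hz
    rw [Metric.mem_eball, edist_dist]
    rw [mem_ball] at hz
    rw [ENNReal.ofReal_lt_iff_lt_toReal dist_nonneg (by simp)]
    exact hz
  have h1 : ∀ z ∈ sphere z₀ ρ, PP H z₀ ρ * rf H z = rf H z - g z := by
    intro z hz
    have hz' : ‖z - z₀‖ = ρ := mem_sphere_iff_norm.1 hz
    rw [pp_bigger hρ hρ'.le hA, pp_mul (hρ.le.trans hρ'.le) hC']
    have h2 : circleIntegral (fun w => rf H w * rf H z) z₀ ρ' =
        circleIntegral (fun w => (w - z)⁻¹ • rf H w - (w - z)⁻¹ • rf H z) z₀ ρ' := by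
      apply circleIntegral.integral_congr (hρ.le.trans hρ'.le)
      intro w hw
      have hw' : ‖w - z₀‖ = ρ' := mem_sphere_iff_norm.1 hw
      have hne : w - z ≠ 0 := by
        intro h0
        rw [sub_eq_zero] at h0
        rw [h0, hz'] at hw'
        exact hρ'.ne hw'
      have h3 := res_id (rf_spec (hC' w hw')) (rf_spec (hC z hz'))
      change rf H w * rf H z = (w - z)⁻¹ • rf H w - (w - z)⁻¹ • rf H z
      rw [← smul_sub, h3, smul_smul, inv_mul_cancel₀ hne, one_smul]
    have hcont : ContinuousOn (fun w : ℂ => (w - z)⁻¹) (sphere z₀ ρ') := by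
      apply ContinuousOn.inv₀ (by fun_prop)
      intro w hw h0
      have hw' : ‖w - z₀‖ = ρ' := mem_sphere_iff_norm.1 hw
      rw [sub_eq_zero] at h0
      rw [h0, hz'] at hw'
      exact hρ'.ne hw'
    rw [h2, circleIntegral.integral_sub, circleIntegral.integral_smul_const,
      circleIntegral.integral_sub_inv_of_mem_ball, smul_sub, smul_smul, cc_mul, one_smul]
    · simp only [hg, cc]; abel
    · rw [mem_ball_iff_norm, hz']; exact hρ'
    · exact (hcont.smul (rf_cont hC')).circleIntegrable (hρ.le.trans hρ'.le)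
    · exact (hcont.smul continuousOn_const).circleIntegrable (hρ.le.trans hρ'.le)
  rw [mul_pp hρ.le hC]
  have h4 : circleIntegral (fun z => PP H z₀ ρ * rf H z) z₀ ρ =
      circleIntegral (fun z => rf H z - g z) z₀ ρ := by
    apply circleIntegral.integral_congr hρ.le
    intro z hz; exact h1 z hz
  have h5 : circleIntegral g z₀ ρ = 0 := by
    apply Complex.circleIntegral_eq_zero_of_differentiable_on_off_countable hρ.le
      Set.countable_empty
    · exact hgd.continuousOn.mono (closedBall_subset_ball hρ')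
    · intro z hz
      exact (hgd z (ball_subset_ball hρ'.le hz.1)).differentiableAt
        (isOpen_ball.mem_nhds (ball_subset_ball hρ'.le hz.1))
  rw [h4, circleIntegral.integral_sub, h5, sub_zero]
  · rfl
  · exact (rf_cont hC).circleIntegrable hρ.le
  · apply ContinuousOn.circleIntegrable hρ.le
    exact hgd.continuousOn.mono (sphere_subset_closedBall.trans (closedBall_subset_ball hρ'))

theorem pp_compact {H : Submodule ℂ (X × X)} {z₀ : ℂ} {ρ : ℝ} {B : X →L[ℂ] X} (hρ : 0 ≤ ρ)
    (hC : ∀ z, ‖z - z₀‖ = ρ → ∃ R, IsR H z R) (hB : IsCompactOperator B)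
    (hD : ∀ z, ‖z - z₀‖ ≤ ρ → ∃ R, IsR (plusB H B) z R) : IsCompactOperator (PP H z₀ ρ) := by
  have h0 : circleIntegral (rf (plusB H B)) z₀ ρ = 0 := by
    apply Complex.circleIntegral_eq_zero_of_differentiable_on_off_countable hρ
      Set.countable_empty
    · intro z hz
      exact (rf_diff (hD z (mem_closedBall_iff_norm.1 hz))).continuousAt.continuousWithinAt
    · intro z hz
      exact rf_diff (hD z (mem_ball_iff_norm.1 hz.1).le)
  have hC' : ∀ z, ‖z - z₀‖ = ρ → ∃ R, IsR (plusB H B) z R := fun z hz => hD z hz.le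
  have h1 : circleIntegral (fun z => rf H z - rf (plusB H B) z) z₀ ρ = circleIntegral (rf H) z₀ ρ := by
    rw [circleIntegral.integral_sub ((rf_cont hC).circleIntegrable hρ)
      ((rf_cont hC').circleIntegrable hρ)]
    change _ - circleIntegral (rf (plusB H B)) z₀ ρ = _
    rw [h0, sub_zero]
  have h2 : circleIntegral (fun z => rf H z - rf (plusB H B) z) z₀ ρ ∈
      compactOperator (RingHom.id ℂ) X X := by
    apply circle_mem _ _ hρ ((rf_cont hC).sub (rf_cont hC'))
    · intro z hz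
      have hz' : ‖z - z₀‖ = ρ := mem_sphere_iff_norm.1 hz
      change rf H z - rf (plusB H B) z ∈ compactOperator (RingHom.id ℂ) X X
      rw [pert (rf_spec (hC z hz')) (rf_spec (hC' z hz'))]
      change IsCompactOperator (⇑(rf H z) ∘ ⇑B ∘ ⇑(rf (plusB H B) z))
      exact (hB.comp_clm (rf (plusB H B) z)).clm_comp (rf H z)
    · exact isClosed_setOfPred_isCompactOperator
  rw [h1] at h2
  have h3 : PP H z₀ ρ ∈ compactOperator (RingHom.id ℂ) X X := by
    unfold PP
    exact Submodule.neg_mem _ (Submodule.smul_mem _ _ h2)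
  exact h3

theorem finite_of_compact {P : X →L[ℂ] X} (hP : IsCompactOperator P) (hi : ∀ v, P (P v) = P v) :
    FiniteDimensional ℂ (LinearMap.range (P : X →ₗ[ℂ] X)) := by
  have hV : ∀ v ∈ LinearMap.range (P : X →ₗ[ℂ] X), (P : X →ₗ[ℂ] X) v ∈
      LinearMap.range (P : X →ₗ[ℂ] X) := fun v _ => ⟨v, rfl⟩
  have hcl : IsClosed (LinearMap.range (P : X →ₗ[ℂ] X) : Set X) := by
    have : (LinearMap.range (P : X →ₗ[ℂ] X) : Set X) = {v | P v = v} := by
      ext v
      constructor
      · rintro ⟨u, rfl⟩; exact hi u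
      · intro h; exact ⟨v, h⟩
    rw [this]
    exact isClosed_eq P.continuous continuous_id
  have h1 := IsCompactOperator.restrict (f := (P : X →ₗ[ℂ] X)) hP hV hcl
  have h2 : ⇑((P : X →ₗ[ℂ] X).restrict hV) = id := by
    funext ⟨v, u, hu⟩
    apply Subtype.ext
    change P v = v
    rw [← hu]; exact hi u
  rw [h2] at h1
  exact FiniteDimensional.of_isCompactOperator_id h1

end

theorem rz : S_RZ := by
  intro X _ _ _ H z₀ w ρ K T B hρ hK hw hT hC hB hD
  obtain ⟨K', hD⟩ := hD
  have hC1 : ∀ z, ‖z - z₀‖ = ρ → ∃ R, IsR H z R := fun z hz => by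
    obtain ⟨R, h, _⟩ := hC z hz; exact ⟨R, h⟩
  have hCn : ∀ z, ‖z - z₀‖ = ρ → ‖rf H z‖ ≤ K := fun z hz => by
    obtain ⟨R, h, h'⟩ := hC z hz; rwa [rf_eq h]
  have hD1 : ∀ z, ‖z - z₀‖ ≤ ρ → ∃ R, IsR (plusB H B) z R := fun z hz => by
    obtain ⟨R, h, _⟩ := hD z hz; exact ⟨R, h⟩
  have hid : ∀ v, PP H z₀ ρ (PP H z₀ ρ v) = PP H z₀ ρ v := by
    have h := pp_idem (H := H) (z₀ := z₀) hρ (ρ' := ρ + 1 / (2 * (K + 1)))
      (by have : 0 < 1 / (2 * (K + 1)) := by positivity
          linarith) (fun z h1 h2 => annulus hρ hK hC h1 h2)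
    intro v
    exact congrArg (fun A : X →L[ℂ] X => A v) h
  refine ⟨PP H z₀ ρ, hid, finite_of_compact (pp_compact hρ.le hC1 hB hD1) hid, ?_, ?_, ?_⟩
  · -- commutation
    have h1 : T * PP H z₀ ρ = PP H z₀ ρ * T := by
      rw [mul_pp hρ.le hC1, pp_mul hρ.le hC1]
      congr 2
      apply circleIntegral.integral_congr hρ.le
      intro z hz
      have hz' : ‖z - z₀‖ = ρ := mem_sphere_iff_norm.1 hz
      have hne : z - w ≠ 0 := by
        intro h0
        rw [sub_eq_zero] at h0
        rw [h0] at hz'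
        exact hw.ne' hz'
      have h3 := res_id (rf_spec (hC1 z hz')) hT
      have h4 := res_id hT (rf_spec (hC1 z hz'))
      have h5 : (z - w) • (rf H z * T) = (z - w) • (T * rf H z) := by
        rw [← h3, ← neg_sub w z, neg_smul, ← h4]; abel
      exact (smul_right_injective _ hne h5).symm
    intro v
    exact congrArg (fun A : X →L[ℂ] X => A v) h1
  · intro v l hv hPv hl
    by_contra hcon
    rw [not_lt] at hcon
    have hl0 : (v, l • v + (0 : X)) ∈ H := by rwa [add_zero]
    rcases hcon.eq_or_lt with h | h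
    · have h1 := quasi (rf_spec (hC1 l h.symm)) hl0
      rw [sub_self, zero_smul, map_zero, sub_zero] at h1
      exact hv h1.symm
    · apply hv
      rw [← hPv, pp_apply hρ.le hC1]
      have h2 : circleIntegral (fun z => rf H z v) z₀ ρ =
          circleIntegral (fun z => (l - z)⁻¹ • v) z₀ ρ := by
        apply circleIntegral.integral_congr hρ.le
        intro z hz
        have hz' : ‖z - z₀‖ = ρ := mem_sphere_iff_norm.1 hz
        have hne : l - z ≠ 0 := by
          intro h0
          rw [sub_eq_zero] at h0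
          rw [h0, hz'] at h
          exact lt_irrefl _ h
        have h1 := quasi (rf_spec (hC1 z hz')) hl0
        rw [map_zero, sub_zero] at h1
        change rf H z v = (l - z)⁻¹ • v
        rw [eq_inv_smul_iff₀ hne]; exact h1
      have h3 : circleIntegral (fun z => (l - z)⁻¹) z₀ ρ = 0 := by
        apply Complex.circleIntegral_eq_zero_of_differentiable_on_off_countable hρ.le
          Set.countable_empty
        · apply ContinuousOn.inv₀ (by fun_prop)
          intro z hz h0
          rw [sub_eq_zero] at h0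
          rw [mem_closedBall_iff_norm, ← h0] at hz
          linarith
        · intro z hz
          have hne : l - z ≠ 0 := by
            intro h0
            rw [sub_eq_zero] at h0
            have := mem_ball_iff_norm.1 hz.1
            rw [← h0] at this
            linarith
          exact DifferentiableAt.inv (by fun_prop) hne
      rw [h2, circleIntegral.integral_smul_const, h3, zero_smul, smul_zero, neg_zero]
  · intro v r l hl hv
    have hn : ∀ z, ‖z - z₀‖ = ρ → ρ - ‖l - z₀‖ ≤ ‖z - l‖ := by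
      intro z hz
      have : ‖z - z₀‖ ≤ ‖z - l‖ + ‖l - z₀‖ := by
        have := norm_add_le (z - l) (l - z₀)
        rwa [sub_add_sub_cancel] at this
      linarith
    have hne : ∀ z, ‖z - z₀‖ = ρ → z - l ≠ 0 := by
      intro z hz h0
      have := hn z hz
      rw [h0, norm_zero] at this
      linarith
    have h1 : circleIntegral (fun z => rf H z v) z₀ ρ =
        circleIntegral (fun z => (z - l)⁻¹ • rf H z r - (z - l)⁻¹ • v) z₀ ρ := by
      apply circleIntegral.integral_congr hρ.le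
      intro z hz
      have hz' : ‖z - z₀‖ = ρ := mem_sphere_iff_norm.1 hz
      have h1 := quasi (rf_spec (hC1 z hz')) hv
      change rf H z v = (z - l)⁻¹ • rf H z r - (z - l)⁻¹ • v
      rw [← smul_sub, eq_inv_smul_iff₀ (hne z hz'), ← neg_sub l z, neg_smul, h1, neg_sub]
    have hcont : ContinuousOn (fun z : ℂ => (z - l)⁻¹) (sphere z₀ ρ) := by
      apply ContinuousOn.inv₀ (by fun_prop)
      intro z hz
      exact hne z (mem_sphere_iff_norm.1 hz)
    have hcr : ContinuousOn (fun z : ℂ => rf H z r) (sphere z₀ ρ) :=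
      (rf_cont hC1).clm_apply continuousOn_const
    have h2 : PP H z₀ ρ v - v = -(cc • circleIntegral (fun z => (z - l)⁻¹ • rf H z r) z₀ ρ) := by
      rw [pp_apply hρ.le hC1, h1, circleIntegral.integral_sub,
        circleIntegral.integral_smul_const, circleIntegral.integral_sub_inv_of_mem_ball, smul_sub,
        smul_smul, cc_mul, one_smul]
      · abel
      · exact mem_ball_iff_norm.2 hl
      · exact (hcont.smul hcr).circleIntegrable hρ.le
      · exact (hcont.smul continuousOn_const).circleIntegrable hρ.le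
    rw [h2, norm_neg]
    have h3 : 0 < ρ - ‖l - z₀‖ := by linarith
    have h4 := circleIntegral.norm_two_pi_i_inv_smul_integral_le_of_norm_le_const (c := z₀) hρ.le
      (f := fun z => (z - l)⁻¹ • rf H z r) (C := K * ‖r‖ / (ρ - ‖l - z₀‖)) (by
        intro z hz
        have hz' : ‖z - z₀‖ = ρ := mem_sphere_iff_norm.1 hz
        rw [norm_smul, norm_inv, div_eq_inv_mul]
        apply mul_le_mul
        · exact inv_anti₀ h3 (hn z hz')
        · exact ((rf H z).le_opNorm r).trans (mul_le_mul_of_nonneg_right (hCn z hz') (norm_nonneg _))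
        · exact norm_nonneg _
        · exact inv_nonneg.2 h3.le)
    refine h4.trans (le_of_eq ?_)
    ring

end

end Pool.Agent.W903.CP
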