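import Pool.Agent.W982.CP.Fm
import Pool.Agent.H243R3.TP.PolyB
import Pool.Agent.H671R2.PolyAuto

/-!
# Project CP: polynomial-time computability of the reduction and of the decoding
-/

namespace Pool.Agent.NPC.W903CP

open Pool.Agent.W982.CP Pool.Agent.H243R3.TP Pool.Agent.NPC.TP

variable {α : Type} [TEnc α]

attribute [local fun_prop] poly_natCast

theorem poly_negCast {n : α → ℕ} (hn : Poly n) : Poly (fun a => -((n a : ℕ) : ℚ)) := by
  refine Poly.of_toT ((Poly.pair (Poly.pair (Poly.decide_lt (Poly.const 0) hn) hn)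
    (Poly.const (1 : ℕ))).toT'.congr fun a => ?_)
  change _ = toT ((-((n a : ℕ) : ℚ)).num, (-((n a : ℕ) : ℚ)).den)
  have h1 : (-((n a : ℕ) : ℚ)).num = -(n a : ℤ) := by simp
  have h2 : (-((n a : ℕ) : ℚ)).den = 1 := by simp
  rw [h1, h2]
  change _ = T.node (toT (decide (-(n a : ℤ) < 0), (-(n a : ℤ)).natAbs)) (toT 1)
  have h3 : decide (-(n a : ℤ) < 0) = decide (0 < n a) := by
    congr 1
    apply propext
    omega
  rw [h3, Int.natAbs_neg, Int.natAbs_natCast]
  rfl

attribute [local fun_prop] poly_negCast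

theorem poly_twoPow {n : α → ℕ} (hn : UPoly n) : Poly (fun a => 2 ^ (n a)) :=
  (Poly.valBits (Poly.append (l := fun a => List.replicate (n a) false)
    ((Poly.map (F := fun _ (_ : Unit) => false) hn (Poly.const false)).congr fun a => by simp)
    (Poly.const [true]))).congr fun a => by
    rw [valB_replicate_false]; simp

theorem poly_gBpow {n e : α → ℕ} (hn : UPoly n) (he : UPoly e) :
    Poly (fun a => gB (n a) ^ (e a)) :=
  (poly_twoPow ((hn.add (UPoly.const 4)).mul he)).congr fun a => by
    rw [gB, ← pow_mul]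

theorem poly_gA {n t : α → ℕ} (hn : UPoly n) (ht : Poly t) : Poly (fun a => gA (n a) (t a)) := by
  unfold gA
  exact Poly.mul (Poly.mul (Poly.const 64) ht) (poly_gBpow hn hn)

theorem poly_gZ {n t : α → ℕ} (hn : UPoly n) (ht : Poly t) : Poly (fun a => gZ (n a) (t a)) := by
  unfold gZ
  exact Poly.mul (Poly.mul (Poly.const 2) ht) (poly_gA hn ht)

theorem poly_gR {n t : α → ℕ} (hn : UPoly n) (ht : Poly t) : Poly (fun a => gR (n a) (t a)) := by
  unfold gR
  exact Poly.mul (Poly.mul (Poly.const 16) (poly_gA hn ht)) (poly_gZ hn ht)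

theorem poly_offX {n t c m k : α → ℕ} (hn : UPoly n) (ht : Poly t) (hc : UPoly c) (hm : Poly m)
    (hk : Poly k) : Poly (fun a => offX (n a) (t a) (c a) (m a) (k a)) := by
  have h1 : Poly (fun a => gB (n a) ^ (c a + 1)) := poly_gBpow hn (hc.add (UPoly.const 1))
  have h2 := poly_gA hn ht
  unfold offX
  fun_prop

theorem poly_offY {n t r m k : α → ℕ} (hn : UPoly n) (ht : Poly t) (hr : UPoly r) (hm : Poly m)
    (hk : Poly k) : Poly (fun a => offY (n a) (t a) (r a) (m a) (k a)) := by
  have h1 : Poly (fun a => 2 ^ (r a)) := poly_twoPow hr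
  have h2 := poly_gA hn ht
  unfold offY
  fun_prop

/-- The points, with bounded exponents. -/
def ptc (n t : ℕ) (b : Blob) (m k : ℕ) : ℚ × ℚ :=
  ((if b.2 = 1 ∨ b.2 = 2 then
      ((gR n t * gB n ^ (min (col b) n + 1) - offX n t (min (col b) n) m k : ℕ) : ℚ)
    else -((gR n t * gB n ^ (min (col b) n + 1) - offX n t (min (col b) n) m k : ℕ) : ℚ)),
   (if b.2 = 2 ∨ b.2 = 3 then
      ((gR n t * (2 ^ (n + 1) - 2 ^ (min (row b) n)) - offY n t (min (row b) n) m k : ℕ) : ℚ)
    else
      -((gR n t * (2 ^ (n + 1) - 2 ^ (min (row b) n)) - offY n t (min (row b) n) m k : ℕ) : ℚ)))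

theorem ptc_eq {n : ℕ} (t : ℕ) {b : Blob} (m k : ℕ) (hc : col b ≤ n) (hr : row b ≤ n) :
    ptc n t b m k = pt n t b m k := by
  unfold ptc pt
  rw [min_eq_left hc, min_eq_left hr]
  refine Prod.ext ?_ ?_
  · simp only
    split_ifs <;> ring
  · simp only
    split_ifs <;> ring

theorem poly_ptc {n t m k : α → ℕ} {b : α → Blob} (hn : UPoly n) (ht : Poly t) (hb : Poly b)
    (hm : Poly m) (hk : Poly k) : Poly (fun a => ptc (n a) (t a) (b a) (m a) (k a)) := by
  have hcol : Poly (fun a => col (b a)) := by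
    unfold col
    fun_prop
  have hrow : Poly (fun a => row (b a)) := by
    unfold Pool.Agent.W982.CP.row
    fun_prop
  have hnP := hn.toPoly
  have h1 : UPoly (fun a => min (col (b a)) (n a)) :=
    UPoly.of_le (Poly.min hcol hnP) hn fun a => min_le_right _ _
  have h2 : UPoly (fun a => min (row (b a)) (n a)) :=
    UPoly.of_le (Poly.min hrow hnP) hn fun a => min_le_right _ _
  have h3 := poly_gBpow hn (h1.add (UPoly.const 1))
  have h4 := poly_offX hn ht h1 hm hk
  have h5 := poly_offY hn ht h2 hm hk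
  have h6 := poly_gR hn ht
  have h7 := poly_twoPow (hn.add (UPoly.const 1))
  have h8 := poly_twoPow h2
  have e1 : Poly (fun a => gR (n a) (t a) * gB (n a) ^ (min (col (b a)) (n a) + 1) -
      offX (n a) (t a) (min (col (b a)) (n a)) (m a) (k a)) := Poly.sub (Poly.mul h6 h3) h4
  have e2 : Poly (fun a => gR (n a) (t a) * (2 ^ (n a + 1) - 2 ^ (min (row (b a)) (n a))) -
      offY (n a) (t a) (min (row (b a)) (n a)) (m a) (k a)) :=
    Poly.sub (Poly.mul h6 (Poly.sub h7 h8)) h5
  unfold ptc
  refine Poly.pair (Poly.ite (p := fun a => (b a).2 = 1 ∨ (b a).2 = 2) ?_ (poly_natCast e1)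
    (poly_negCast e1)) (Poly.ite (p := fun a => (b a).2 = 2 ∨ (b a).2 = 3) ?_ (poly_natCast e2)
    (poly_negCast e2))
  · exact Poly.decide_or (Poly.decide_eq (Poly.snd hb) (Poly.const 1))
      (Poly.decide_eq (Poly.snd hb) (Poly.const 2))
  · exact Poly.decide_or (Poly.decide_eq (Poly.snd hb) (Poly.const 2))
      (Poly.decide_eq (Poly.snd hb) (Poly.const 3))

/-! ### The digraph -/

theorem poly_tp {o : α → ℕ} (ho : Poly o) : Poly (fun a => tp (o a)) := by
  unfold tp
  fun_prop

attribute [local fun_prop] poly_tp poly_vr poly_sn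

theorem poly_fv {F : α → List Clause} {o : α → ℕ} (hF : Poly F) (ho : Poly o) :
    Poly (fun a => fv (F a) (o a)) := by
  unfold fv
  fun_prop

theorem poly_fs {F : α → List Clause} {o : α → ℕ} (hF : Poly F) (ho : Poly o) :
    Poly (fun a => fs (F a) (o a)) := by
  unfold fs
  fun_prop

attribute [local fun_prop] poly_fv poly_fs

theorem uPoly_pos {F : α → List Clause} (hF : Poly F) :
    UPoly (fun a => 3 * (2 * (F a).length)) :=
  (UPoly.const 3).mul ((UPoly.const 2).mul (UPoly.length hF))

theorem poly_rangeP {F : α → List Clause} (hF : Poly F) :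
    Poly (fun a => List.range (3 * (2 * (F a).length))) := (uPoly_pos hF).range

attribute [local fun_prop] poly_rangeP poly_optGetD

theorem poly_nx {F : α → List Clause} {o : α → ℕ} (hF : Poly F) (ho : Poly o) :
    Poly (fun a => nxt (fv (F a)) (3 * (2 * (F a).length)) (o a)) := by
  unfold nxt
  refine poly_optGetD (Poly.head? (Poly.append ?_ ?_)) ho
  · refine Poly.filter (p := fun a m => decide (o a < m) && decide (fv (F a) m = fv (F a) (o a)))
      (poly_rangeP hF) ?_
    fun_prop
  · refine Poly.filter (p := fun a m => decide (fv (F a) m = fv (F a) (o a)))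
      (poly_rangeP hF) ?_
    fun_prop

theorem poly_vx {o i j : α → ℕ} (ho : Poly o) (hi : Poly i) (hj : Poly j) :
    Poly (fun a => vx (o a) (i a) (j a)) := by
  unfold vx
  fun_prop

attribute [local fun_prop] poly_nx poly_vx

theorem poly_up {F : α → List Clause} {o i j : α → ℕ} (hF : Poly F) (ho : Poly o) (hi : Poly i)
    (hj : Poly j) : Poly (fun a => up (fv (F a)) (2 * (F a).length) (o a) (i a) (j a)) := by
  unfold up
  fun_prop

theorem poly_ringA {o i j : α → ℕ} (ho : Poly o) (hi : Poly i) (hj : Poly j) :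
    Poly (fun a => ringA (o a) (i a) (j a)) := by
  unfold ringA
  fun_prop

theorem poly_rho {F : α → List Clause} {o : α → ℕ} (hF : Poly F) (ho : Poly o) :
    Poly (fun a => rho (fs (F a)) (o a)) := by
  unfold rho
  fun_prop

attribute [local fun_prop] poly_up poly_ringA poly_rho

theorem poly_hv {F : α → List Clause} {c q : α → ℕ} (hF : Poly F) (hc : Poly c) (hq : Poly q) :
    Poly (fun a => hv (fs (F a)) (c a) (q a)) := by
  unfold hv
  fun_prop

attribute [local fun_prop] poly_hv

theorem poly_fa {F : α → List Clause} (hF : Poly F) : Poly (fun a => fa (F a)) := by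
  have h2 : Poly (fun a => List.range (2 * (F a).length)) :=
    ((UPoly.const 2).mul (UPoly.length hF)).range
  unfold fa arcs
  fun_prop

theorem poly_blobs {E : α → List (ℕ × ℕ)} (hE : Poly E) : Poly (fun a => blobs (E a)) := by
  unfold blobs
  fun_prop

theorem uPoly_ft {F : α → List Clause} (hF : Poly F) : UPoly (fun a => ft (F a)) := by
  have h : UPoly (fun a => 444 * (F a).length + 1) :=
    ((UPoly.const 444).mul (UPoly.length hF)).add (UPoly.const 1)
  have h2 := (UPoly.const (α := α) 400).mul (h.mul h)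
  have h3 : (fun a => ft (F a)) = fun a => 400 * ((444 * (F a).length + 1) * (444 * (F a).length + 1)) := by
    funext a
    rw [ft, sq]
  rw [h3]
  exact h2

/-- The instance with bounded exponents. -/
def instc (φ : List Clause) : List (ℚ × ℚ) :=
  (blobs (fa φ)).flatMap fun b => (List.range 3).flatMap fun m => (List.range (ft φ)).map fun k =>
    ptc (144 * φ.length) (ft φ) b m k

theorem poly_instc : Poly instc := by
  unfold instc
  refine Poly.flatMap (F := fun φ b => (List.range 3).flatMap fun m => (List.range (ft φ)).map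
    fun k => ptc (144 * φ.length) (ft φ) b m k) (poly_blobs (poly_fa Poly.id)) ?_
  refine Poly.flatMap (l := fun _ : List Clause × Blob => List.range 3) (F := fun q m =>
    (List.range (ft q.1)).map fun k => ptc (144 * q.1.length) (ft q.1) q.2 m k) (Poly.const _) ?_
  refine Poly.map (l := fun q : (List Clause × Blob) × ℕ => List.range (ft q.1.1))
    (F := fun q k => ptc (144 * q.1.1.length) (ft q.1.1) q.1.2 q.2 k)
    (uPoly_ft (Poly.fst (Poly.fst Poly.id))).range ?_
  exact poly_ptc (α := ((List Clause × Blob) × ℕ) × ℕ)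
    ((UPoly.const 144).mul (UPoly.length (Poly.fst (Poly.fst (Poly.fst Poly.id)))))
    (uPoly_ft (Poly.fst (Poly.fst (Poly.fst Poly.id)))).toPoly
    (Poly.snd (Poly.fst (Poly.fst Poly.id))) (Poly.snd (Poly.fst Poly.id)) (Poly.snd Poly.id)

theorem flatMap_congr' {β γ : Type} {l : List β} {f g : β → List γ} (h : ∀ b ∈ l, f b = g b) :
    l.flatMap f = l.flatMap g := by
  induction l with
  | nil => rfl
  | cons b l ih =>
    rw [List.flatMap_cons, List.flatMap_cons, h b (by simp),
      ih fun b hb => h b (List.mem_cons_of_mem _ hb)]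

theorem instc_eq (hA : S_ARCS) (φ : List Clause) : instc φ = inst φ := by
  unfold instc inst pts
  refine flatMap_congr' fun b hb => ?_
  have hb1 : b.1 ∈ fa φ := by
    unfold blobs at hb
    rw [List.mem_flatMap] at hb
    obtain ⟨e, he, hb⟩ := hb
    rw [List.mem_map] at hb
    obtain ⟨τ, _, rfl⟩ := hb
    exact he
  obtain ⟨h1, h2⟩ := (hA (fv φ) (fs φ) (2 * φ.length)).2.2 b.1 hb1
  have hc : col b ≤ 144 * φ.length := by
    unfold col
    split_ifs <;> omega
  have hr : row b ≤ 144 * φ.length := by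
    unfold Pool.Agent.W982.CP.row
    split_ifs <;> omega
  unfold blobPts
  refine flatMap_congr' fun m _ => ?_
  refine List.map_congr_left fun k _ => ?_
  exact ptc_eq _ _ _ hc hr

/-- **The instance is computable in polynomial time.** -/
theorem t_P1 (hA : S_ARCS) : S_P1 := poly_instc.congr fun φ => instc_eq hA φ

/-! ### The decoder -/

theorem poly_fo {F : α → List Clause} {v : α → ℕ} (hF : Poly F) (hv : Poly v) :
    Poly (fun a => fo (fv (F a)) (2 * (F a).length) (v a)) := by
  unfold fo
  fun_prop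

attribute [local fun_prop] poly_fo

theorem poly_mk1 {F : α → List Clause} {v : α → ℕ} (hF : Poly F) (hv : Poly v) :
    Poly (fun a => mk1 (fv (F a)) (2 * (F a).length) (v a)) := by
  unfold mk1
  fun_prop

theorem poly_mk2 {F : α → List Clause} {v : α → ℕ} (hF : Poly F) (hv : Poly v) :
    Poly (fun a => mk2 (fv (F a)) (2 * (F a).length) (v a)) := by
  unfold mk2
  fun_prop

/-- `cls` with bounded exponents. -/
def clsc (n t : ℕ) (T : List (ℚ × ℚ)) (b : Blob) (m : ℕ) : ℕ :=
  ((List.range t).filter fun k => decide (ptc n t b m k ∈ T)).length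

theorem clsc_eq {n : ℕ} (t : ℕ) (T : List (ℚ × ℚ)) {b : Blob} (m : ℕ) (hc : col b ≤ n)
    (hr : row b ≤ n) : clsc n t T b m = cls n t T b m := by
  unfold clsc cls
  simp only [ptc_eq t m _ hc hr]

theorem poly_clsc {n t m : α → ℕ} {T : α → List (ℚ × ℚ)} {b : α → Blob} (hn : UPoly n)
    (ht : UPoly t) (hT : Poly T) (hb : Poly b) (hm : Poly m) :
    Poly (fun a => clsc (n a) (t a) (T a) (b a) (m a)) := by
  unfold clsc
  refine Poly.length (Poly.filter (p := fun a k => decide (ptc (n a) (t a) (b a) (m a) k ∈ T a))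
    ht.range ?_)
  have h : Poly (fun q : α × ℕ => q.1) := Poly.fst Poly.id
  exact Poly.dec_mem (poly_ptc (hn.comp h) (ht.toPoly.comp h) (hb.comp h) (hm.comp h)
    (Poly.snd Poly.id)) (hT.comp h)

/-- The test with bounded exponents. -/
def decc (φ : List Clause) (y : List (List (ℚ × ℚ))) (v : ℕ) : Bool :=
  y.any fun T => decide (23 * ft φ + 48 * (444 * φ.length) < 2 * T.length) &&
    decide (ft φ < 2 * clsc (144 * φ.length) (ft φ) T (mk1 (fv φ) (2 * φ.length) v) 1) &&
    decide (ft φ < 2 * clsc (144 * φ.length) (ft φ) T (mk2 (fv φ) (2 * φ.length) v) 1)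

theorem poly_decc {F : α → List Clause} {y : α → List (List (ℚ × ℚ))} {v : α → ℕ} (hF : Poly F)
    (hy : Poly y) (hv : Poly v) : Poly (fun a => decc (F a) (y a) (v a)) := by
  unfold decc
  have hf : Poly (fun q : α × List (ℚ × ℚ) => q.1) := Poly.fst Poly.id
  have hs : Poly (fun q : α × List (ℚ × ℚ) => q.2) := Poly.snd Poly.id
  have hF' := hF.comp hf
  have h1 := (uPoly_ft hF).toPoly.comp hf
  have h2 := poly_clsc (α := α × List (ℚ × ℚ)) ((UPoly.const 144).mul (UPoly.length hF'))
    (uPoly_ft hF') hs (poly_mk1 hF' (hv.comp hf)) (Poly.const 1)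
  have h3 := poly_clsc (α := α × List (ℚ × ℚ)) ((UPoly.const 144).mul (UPoly.length hF'))
    (uPoly_ft hF') hs (poly_mk2 hF' (hv.comp hf)) (Poly.const 1)
  refine Poly.any (p := fun a T => decide (23 * ft (F a) + 48 * (444 * (F a).length) <
      2 * T.length) &&
    decide (ft (F a) < 2 * clsc (144 * (F a).length) (ft (F a)) T
      (mk1 (fv (F a)) (2 * (F a).length) (v a)) 1) &&
    decide (ft (F a) < 2 * clsc (144 * (F a).length) (ft (F a)) T
      (mk2 (fv (F a)) (2 * (F a).length) (v a)) 1)) hy ?_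
  refine Poly.and (Poly.and (Poly.decide_lt ?_ ?_) (Poly.decide_lt h1 (Poly.mul (Poly.const 2) h2)))
    (Poly.decide_lt h1 (Poly.mul (Poly.const 2) h3))
  · exact Poly.add (Poly.mul (Poly.const 23) h1) (Poly.mul (Poly.const 48) (Poly.mul
      (Poly.const 444) (Poly.length hF')))
  · exact Poly.mul (Poly.const 2) (Poly.length hs)

theorem fo_lt {f : ℕ → ℕ} {m : ℕ} (hm : 1 ≤ m) (v : ℕ) : fo f m v < 3 * m := by
  unfold fo
  cases h : ((List.range (3 * m)).filter fun o => decide (f o = v)) with
  | nil => simp; omega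
  | cons o l =>
    simp only [List.head?_cons, Option.getD_some]
    have : o ∈ ((List.range (3 * m)).filter fun o => decide (f o = v)) := by rw [h]; simp
    rw [List.mem_filter, List.mem_range] at this
    exact this.1

theorem decc_eq {φ : List Clause} (hφ : 1 ≤ φ.length) (y : List (List (ℚ × ℚ))) (v : ℕ) :
    decc φ y v = dec φ y v := by
  have ho : fo (fv φ) (2 * φ.length) v < 3 * (2 * φ.length) := fo_lt (by omega) v
  have hA : ∀ n, 24 * fo (fv φ) (2 * φ.length) v + 6 ≤ n →
      col (mk1 (fv φ) (2 * φ.length) v) ≤ n ∧ row (mk1 (fv φ) (2 * φ.length) v) ≤ n ∧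
      col (mk2 (fv φ) (2 * φ.length) v) ≤ n ∧ row (mk2 (fv φ) (2 * φ.length) v) ≤ n := by
    intro n hn
    unfold mk1 mk2 ringA col Pool.Agent.W982.CP.row up vx
    simp only [show ¬ ((0 : ℕ) = 7) by decide, if_false]
    refine ⟨?_, ?_, ?_, ?_⟩ <;>
    · split_ifs <;> simp <;> omega
  obtain ⟨h1, h2, h3, h4⟩ := hA (144 * φ.length) (by omega)
  unfold decc Pool.Agent.W982.CP.dec
  simp only [clsc_eq _ _ _ h1 h2, clsc_eq _ _ _ h3 h4]

/-- **The decoding is computable in polynomial time.** -/
theorem t_P2 : S_P2 := by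
  have h : Poly (fun z : List Clause × List (List (ℚ × ℚ)) =>
      (occ z.1).filter fun x => decc z.1 z.2 (2 * x)) := by
    refine Poly.filter (p := fun z x => decc z.1 z.2 (2 * x)) (poly_occ (Poly.fst Poly.id)) ?_
    exact poly_decc (Poly.fst (Poly.fst Poly.id)) (Poly.snd (Poly.fst Poly.id))
      (Poly.mul (Poly.const 2) (Poly.snd Poly.id))
  refine h.congr fun z => ?_
  unfold decs
  refine List.filter_congr fun x hx => ?_
  refine decc_eq ?_ _ _
  by_contra hz
  have : z.1 = [] := List.length_eq_zero_iff.1 (by omega)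
  rw [this] at hx
  simp [occ] at hx

end Pool.Agent.NPC.W903CP
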